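import Pool.Agent.H175.ML.Graph

/-!
# The cop number of a connected graph is `O(√(n log n · min (D, log n)))`, `D` the diameter

Proof idea. The library proves `c(G) ≤ 81 √n (log n + 1)` (`SqrtLog`) and
`c(G) ≤ 2500 D √(n (log n + 1))` (`BoundedDiameter`) with the entropy (minimax) method: each cop plays
for many ends `z` (positions of the robber at the end of the game) at once. In the second result a cop
may commit himself, in one of the last `D` rounds, to a list of at most `L` ends; one factor `√D` is lost
in the inequality for a pair of players in exchanged roles and one in the assignment of the cops to the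
ends. Here the cops offer *hybrid* lists: a cop who offers a list `A`, `|A| ≤ L`, is used for one of the
ends of `A` with probability `|A| / L` only, and goes on otherwise.
(1) With hybrid lists the pair inequality holds with a constant which does not depend on `D`
(`hyb_step`, `px`, `pf`).
(2) The ends which are in at least `L` lists are assigned to different cops by dependent rounding
(Birkhoff's theorem, then pairs of assignments are merged along alternating paths), such that the
product potential of the cops who go on does not increase (`rounding_holds`, `last_phase`).
So only one factor `√D` is left.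
-/

set_option autoImplicit false
open N6ef48c04

namespace Pool.Agent.Results.MP_964892_co.DiameterLogInterpolation

/-- Let `G` be a connected graph on `n` vertices in which any two vertices have distance at most
`D`, where `D ≥ 1`. Then `c(G) ≤ 5400 √(n (log n + 1) min (D, log n + 1))`. -/
theorem result {V : Type} [Fintype V] (G : SimpleGraph V) (hG : G.Connected) (D : ℕ)
    (hD1 : 1 ≤ D) (hD : ∀ u v, G.dist u v ≤ D) :
    (copNumber G : ℝ) ≤
      5400 * Real.sqrt (Fintype.card V * (Real.log (Fintype.card V) + 1) *
        min (D : ℝ) (Real.log (Fintype.card V) + 1)) := by
  have : Nonempty V := hG.nonempty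
  have hn1 : (1 : ℝ) ≤ Fintype.card V := by exact_mod_cast Fintype.card_pos
  have hlog0 : 0 ≤ Real.log (Fintype.card V) := Real.log_nonneg hn1
  rcases le_total (D : ℝ) (Real.log (Fintype.card V) + 1) with h | h
  · rw [min_eq_left h]
    refine (Pool.Agent.H175.ML.graph_bound G hG D hD1 hD).trans (le_of_eq ?_)
    rw [mul_comm (D : ℝ)]
  · rw [min_eq_right h]
    refine (Pool.Agent.H594R2.Mey2.graph_bound G hG).trans ?_
    have h0 : 0 ≤ Real.log (Fintype.card V) + 1 := by linarith
    rw [mul_assoc (Fintype.card V : ℝ), Real.sqrt_mul (by linarith), Real.sqrt_mul_self h0]
    have h1 : 0 ≤ Real.sqrt (Fintype.card V) * (Real.log (Fintype.card V) + 1) := by positivity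
    nlinarith

end Pool.Agent.Results.MP_964892_co.DiameterLogInterpolation
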