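import Pool.Agent.H133.FR.Bound

/-!
# Meyniel's problem for a fast robber

The cops have speed `s`, the robber has speed `R`: in each round every cop moves along at most `s`
edges, and then the robber moves along at most `R` edges, without visiting a vertex occupied by a
cop. `copNum G s R` is the least number of cops who win; `copNum G 1 1` is the usual cop number.
Alon and Mehrabian showed that `copNum G 1 R` can be of order `n ^ (R / (R + 1))`, and asked for a
matching upper bound (for `R = 1` this is Meyniel's conjecture). We prove the bound
`n ^ (R / (R + s))` up to the factor `D (log n) ^ 3`, where `D` is the diameter, and the first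
bound with an exponent below `1` for all connected graphs.

Proof idea. Only few paths: `k` cops whose strategies are fixed functions of the path of the robber
catch him on all the `n ^ (R T + 1)` paths with `T` rounds, if for every random path `a` a single
cop catches the robber with probability `p ≥ 2 (R T + 1) log n / k` (minimax, union bound). Let
`τ` be a target time. The cop walks towards the robber along a path `b` which is meant to be the
*future* of the robber, reversed: he is at `b (τ + j s)` when the robber is at `a (τ - j R)`, and
then he samples `b (τ + (j - 1) s)` from the law of the position of the robber at this time, given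
his path so far and the position `b (τ + j s)` at the time `τ + j s`. The expected logarithm of his
chance to meet the robber at `a τ` is bounded from below by entropies `H (a v | a u', u' ≤ u)`.
Averaged over the targets the sum telescopes, and it is at least `- (R / (R + s)) log n - 2`.
For graphs of large diameter cops are placed on `n ^ (1 - s / (2 (R + s)))` vertices such that the
remaining pieces have small diameter.
-/

set_option autoImplicit false

namespace Pool.Agent.Results.MP_964892_co.FastRobber

open Pool.Agent.H133.FR (copNum Catch)

/-- Let `G` be a connected graph on `n` vertices, `R, s ≥ 1`.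
(1) If all distances in `G` are at most `s D`, `D ≥ 1`, then
`16 R (s + 1) (D + R + s) (log n + 2) ^ 3 n ^ (R / (R + s))` cops of speed `s` catch a robber of
speed `R`, and they need at most `(s + 1) (D + R + s) (log n + 2) ^ 2` rounds.
(2) In any case `33 R (s + 1) (R + s) (log n + 2) ^ 4 n ^ (1 - s / (2 (R + s)))` cops of speed `s`
catch a robber of speed `R`.
(3) `copNum G 1 1` is the usual cop number. -/
theorem result :
    (∀ (V : Type) [Fintype V] (G : SimpleGraph V), G.Connected → ∀ R s D : ℕ,
      1 ≤ R → 1 ≤ s → 1 ≤ D → (∀ x y : V, G.dist x y ≤ s * D) →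
        (copNum G s R : ℝ) ≤ 16 * R * (s + 1) * (D + R + s) *
          (Real.log (Fintype.card V) + 2) ^ 3 * (Fintype.card V : ℝ) ^ ((R : ℝ) / (R + s)) ∧
        ∃ k m : ℕ,
          (k : ℝ) ≤ 16 * R * (s + 1) * (D + R + s) * (Real.log (Fintype.card V) + 2) ^ 3 *
            (Fintype.card V : ℝ) ^ ((R : ℝ) / (R + s)) ∧
          (m : ℝ) ≤ (s + 1) * (D + R + s) * (Real.log (Fintype.card V) + 2) ^ 2 ∧
          ∃ c : Fin k → V, ∀ r, Catch G s R m c r) ∧
    (∀ (V : Type) [Fintype V] (G : SimpleGraph V), G.Connected → ∀ R s : ℕ, 1 ≤ R → 1 ≤ s →
      (copNum G s R : ℝ) ≤ 33 * R * (s + 1) * (R + s) * (Real.log (Fintype.card V) + 2) ^ 4 *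
        (Fintype.card V : ℝ) ^ (1 - (s : ℝ) / (2 * (R + s)))) ∧
    ∀ (V : Type) (G : SimpleGraph V), copNum G 1 1 = N6ef48c04.copNumber G := by
  refine ⟨fun V _ G hG R s D hR hs hD hdiam => ?_, fun V _ G hG R s hR hs =>
    Pool.Agent.H133.FR.bound_all G hG R s hR hs, fun V G => Pool.Agent.H133.FR.copNum_one G⟩
  obtain ⟨k, m, hk, hm, c, hc⟩ := Pool.Agent.H133.FR.bound_diam G hG R s D hR hs hD hdiam
  refine ⟨?_, k, m, hk, hm, c, hc⟩
  have h : copNum G s R ≤ k := Pool.Agent.H133.FR.copNum_le G R s k ⟨c, fun r => ⟨m, hc r⟩⟩
  have h' : (copNum G s R : ℝ) ≤ k := by exact_mod_cast h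
  exact h'.trans hk

end Pool.Agent.Results.MP_964892_co.FastRobber
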