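import Pool.Agent.H8.MY.Deg

set_option autoImplicit false

open scoped Classical

open N6ef48c04

namespace Pool.Agent.Results.MP_964892_co.IrregularExpanders

open Pool.Agent.Y649.EX Pool.Agent.H8.MY

/-!
# Meyniel's bound for irregular expanders and for random graphs changed by an adversary

`nb G S` is the closed neighbourhood of the set `S` of vertices. The earlier theorems on expanders
(`NearOptimalExpanders`, `ExceptionalSets` of the library, Prałat and Wormald for random graphs) all
need an upper bound for the degrees which matches the expansion. Adding edges can destroy it, and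
the cop number is not monotone. Here the degrees are arbitrary when
`|N[S]| ≥ c min (d |S|, n)` with `d ^ 2 ≥ √n log n` (case `t = 1`), and for smaller `d` they can be
much larger than `d`.

Proof idea. Guards at a set `P` of at most `√n` vertices, chosen greedily, leave at most `√n` safe
places in every closed neighbourhood; this replaces the degree bound. A team of `O(√n)` cops stands
at random places. For every `v` and every set `S` of safe places which can be reached from `v` in
`t` moves, the ball of radius `t + 1` around `S` has at least `c' min (√n log n |S|, n)` vertices,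
so by a union bound over all these sets it contains at least `|S|` cops, and by Hall's theorem each
safe place has its own cop, who arrives in time. Exceptional vertices are treated with the machinery
of `ExceptionalSets`. In a binomial random graph, and in a pseudorandom graph, sets `S` and `U` with
`|U|` at most a small constant times `min (d |S|, n)` span fewer than `β d |S|` edges; so every
graph which keeps a proportion `β` of the edges at each vertex is an expander, whatever is added.
-/

/-- (1) Irregular expanders. For `t` and `0 < c ≤ 1` there is a `K` such that the following holds.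
Let `G` be a connected graph on `n` vertices, `C` a set of (exceptional) vertices, `d ≥ 1` and
`d ^ (t + 1) ≥ √n log n`. Assume `|N[S] ∪ C| ≥ c min (d |S|, n)` for all sets `S` of vertices
outside `C`, and `DegreeCond G C t`, which is no condition if `t = 1`. If `8 |C| ≤ c n` then
`c(G) ≤ K (√n + √|C| (log n + 1))`; if `|C| (log n + 1) ^ 2 ≤ n` then `c(G) ≤ K √n`.
(2) Let `G` be pseudorandom: `d`-regular on `n` vertices, `d ≥ n ^ ε`, with adjacency matrix `M`
such that `|M x|² ≤ A d |x|²` for all vectors `x` of sum `0`. Let `H` be a connected graph on the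
same vertices in which all vertices outside `C` are still adjacent to at least `β d` of their
neighbours in `G`, where `|C| (log n + 1) ^ 2 ≤ n`. If `Allowed H C d β t`, then `c(H) ≤ K √n`,
where `K` only depends on `t, ε, β, A`.
(3) The random graph `G(n, p)` with `n p ≥ n ^ ε` has, with probability at least `1 - 1 / n`, the
property that all `H` and `C` as in (2), with `d = n p`, satisfy `c(H) ≤ K √n`, where `K` only
depends on `t, ε, β`. In particular (`t = 1`, `C = ∅`) all connected graphs which contain `G(n, p)`,
if `n p ≥ n ^ (1/4) (log n) ^ (1/2)`. -/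
theorem result :
    (∀ (t : ℕ) (c : ℝ), 0 < c → c ≤ 1 → ∃ K : ℝ,
      ∀ (V : Type) [Fintype V] (G : SimpleGraph V) (C : Finset V) (d : ℝ),
      G.Connected → 1 ≤ d →
      √(Fintype.card V : ℝ) * Real.log (Fintype.card V) ≤ d ^ (t + 1) → DegreeCond G C t →
      (∀ S : Finset V, (∀ v ∈ S, v ∉ C) →
        c * min (d * S.card) (Fintype.card V) ≤ (nb G S ∪ C).card) →
      (8 * (C.card : ℝ) ≤ c * Fintype.card V → (copNumber G : ℝ) ≤ K * (√(Fintype.card V : ℝ) +
        √(C.card : ℝ) * (Real.log (Fintype.card V) + 1))) ∧
      (C.card * (Real.log (Fintype.card V) + 1) ^ 2 ≤ Fintype.card V →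
        (copNumber G : ℝ) ≤ K * √(Fintype.card V : ℝ))) ∧
    (∀ (t : ℕ) (ε β A : ℝ), 0 < ε → 0 < β → ∃ K : ℝ,
      ∀ (V : Type) [Fintype V] (G H : SimpleGraph V) (C : Finset V) (d : ℕ),
      (Fintype.card V : ℝ) ^ ε ≤ d → (∀ v, G.degree v = d) →
      (∀ x : V → ℝ, ∑ v, x v = 0 →
        ∑ v, (∑ w ∈ G.neighborFinset v, x w) ^ 2 ≤ A * d * ∑ v, x v ^ 2) →
      H.Connected → C.card * (Real.log (Fintype.card V) + 1) ^ 2 ≤ Fintype.card V →
      Allowed H C d β t →
      (∀ v, v ∉ C → β * d ≤
        ((Finset.univ.filter fun w => H.Adj v w ∧ G.Adj v w).card : ℝ)) →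
      (copNumber H : ℝ) ≤ K * √(Fintype.card V : ℝ)) ∧
    (∀ (t : ℕ) (ε β : ℝ), 0 < ε → 0 < β → ∃ K : ℝ,
      ∀ (V : Type) [Fintype V] (p : unitInterval),
      (Fintype.card V : ℝ) ^ ε ≤ Fintype.card V * (p : ℝ) →
      SimpleGraph.binomialRandom V p {G | ∃ (H : SimpleGraph V) (C : Finset V),
        H.Connected ∧ C.card * (Real.log (Fintype.card V) + 1) ^ 2 ≤ Fintype.card V ∧
        Allowed H C (Fintype.card V * (p : ℝ)) β t ∧
        (∀ v, v ∉ C → β * (Fintype.card V * (p : ℝ)) ≤
          ((Finset.univ.filter fun w => H.Adj v w ∧ G.Adj v w).card : ℝ)) ∧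
        K * √(Fintype.card V : ℝ) < copNumber H} ≤ ENNReal.ofReal (1 / Fintype.card V)) ∧
    (∃ K : ℝ, ∀ (V : Type) [Fintype V] (p : unitInterval),
      √(Fintype.card V : ℝ) * Real.log (Fintype.card V) ≤ (Fintype.card V * (p : ℝ)) ^ 2 →
      SimpleGraph.binomialRandom V p {G | ∃ H : SimpleGraph V, G ≤ H ∧ H.Connected ∧
        K * √(Fintype.card V : ℝ) < copNumber H} ≤ ENNReal.ofReal (2 / Fintype.card V)) := by
  refine ⟨fun t c hc hc1 => ?_, fun t ε β A hε hβ => pseudo_res t ε β A hε hβ,
    fun t ε β hε hβ => random_res t ε β hε hβ, super⟩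
  obtain ⟨K, -, hK⟩ := irr_mey t c hc hc1
  exact ⟨K, hK⟩

end Pool.Agent.Results.MP_964892_co.IrregularExpanders
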